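import Pool.Agent.U503.EA.Stm

set_option autoImplicit false

/-! Project EA, package PT: the product with a standard torus with one more map -/

namespace Pool.Agent.U890.EA

open Finset Function Pool.Agent.TH486.LAC Pool.Agent.Y647.LAC Pool.Agent.U503.VS Pool.Agent.U503.EA

theorem t_PT : S_PT := by
  intro p m b hp hp5 hm hb hbm N _ κ _ J hN hκ hJ
  have hp0 : 0 < p := by omega
  have : NeZero p := ⟨hp0.ne'⟩
  have H₁ := hd_all hp hp5 (m + 1) (by omega)
  obtain ⟨L₂, hL₂, hT₂, hE₂⟩ := hJ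
  have hposN : 0 < Nat.card N := by rw [hN]; exact pow_pos hp0 b
  have : Finite N := Nat.finite_of_card_ne_zero hposN.ne'
  have := Fintype.ofFinite N
  have hX : Fintype.card (Fin (m + 1) → ZMod p) = p ^ (m + 1) := by
    rw [← Nat.card_eq_fintype_card, H₁.card]
  have hY : Fintype.card N = p ^ b := by rw [← Nat.card_eq_fintype_card, hN]
  obtain ⟨L₁, hL₁, hT₁, hE₁, hG₁⟩ := H₁.ex
  obtain ⟨τ₁, τ₂, L₁', rfl, β, hb1, hb2, hw⟩ := hG₁ (by omega)
  cases L₂ with
  | nil => simp at hL₂; omega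
  | cons ρ L₂' =>
  rw [List.length_cons, List.length_cons] at hL₁
  rw [List.length_cons] at hL₂
  have hlen : L₁'.length = L₂'.length := by omega
  obtain ⟨L, hL, hT, hE, -⟩ := pairs hp hp5 hX hY hb hbm L₁' L₂' hlen
    (fun κ hκ => hT₁ κ (List.mem_cons_of_mem _ (List.mem_cons_of_mem _ hκ)))
    (fun κ hκ => hT₂ κ (List.mem_cons_of_mem _ hκ))
  have m1 : τ₁ ∈ τ₁ :: τ₂ :: L₁' := List.mem_cons_self
  have m2 : τ₂ ∈ τ₁ :: τ₂ :: L₁' := List.mem_cons_of_mem _ List.mem_cons_self
  have m3 : ρ ∈ ρ :: L₂' := List.mem_cons_self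
  have : NeZero (p ^ b) := ⟨(pow_pos hp0 b).ne'⟩
  have hpq : p ∣ p ^ b := dvd_pow_self p (by omega)
  obtain ⟨eY, heY, -⟩ := exists_pos (p := 1) hY (one_dvd _) (hT₂ ρ m3) (fun _ => 0)
    (fun _ => Subsingleton.elim _ _)
  obtain ⟨κ₁, κ₂, κ₃, k1, k2, k3, hk⟩ := triple hp hp5 hX hY hb hbm
    (hT₁ τ₁ m1) (hT₁ τ₂ m2) (hT₂ ρ m3) hb1 hb2 hw (StdG p (Fin (m + 1)))
    (fun y => ZMod.castHom hpq (ZMod p) (eY y)) (H₁.grade hE₁ m1) (H₁.grade hE₁ m2)
    (fun y => by simp only [heY, map_add, map_one])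
  refine ⟨L ++ [κ₁, κ₂, κ₃], ?_, ?_, ?_⟩
  · rw [List.length_append, hL, Fintype.card_sum, Fintype.card_fin, hκ]
    simp only [List.length_cons, List.length_nil]
    omega
  · intro κ hκ
    rcases List.mem_append.1 hκ with hκ | hκ
    · exact hT κ hκ
    · simp only [List.mem_cons, List.not_mem_nil, or_false] at hκ
      rcases hκ with rfl | rfl | rfl
      · exact k1
      · exact k2
      · exact k3
  · intro v
    have e1 := hE v
    have e2 := hk v
    rw [List.map_append, ← Multiset.coe_add, e1]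
    have e3 : ((List.map (fun κ => κ v) [κ₁, κ₂, κ₃] : List ((Fin (m + 1) → ZMod p) × N)) :
        Multiset ((Fin (m + 1) → ZMod p) × N)) =
      (([κ₁ v, κ₂ v, κ₃ v] : List ((Fin (m + 1) → ZMod p) × N)) :
        Multiset ((Fin (m + 1) → ZMod p) × N)) := rfl
    rw [e3, e2]
    have r1 : (univ : Finset (Fin (m + 1) ⊕ κ)).val.map (fun i => v +
        (Sum.elim (fun i : Fin (m + 1) => ((Pi.single i 1, 0) : (Fin (m + 1) → ZMod p) × N))
          (fun j => ((0, J j) : (Fin (m + 1) → ZMod p) × N))) i) =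
        (StdE p (Fin (m + 1)) v.1).map (fun x => (x, v.2)) +
        ((univ : Finset κ).val.map (fun i => v.2 + J i)).map (fun y => (v.1, y)) := by
      unfold StdE
      rw [← Finset.univ_disjSum_univ, Finset.val_disjSum, Multiset.disjSum, Multiset.map_add,
        Multiset.map_map, Multiset.map_map, Multiset.map_map, Multiset.map_map]
      congr 2
      · funext i
        simp [Prod.ext_iff]
      · funext i
        simp [Prod.ext_iff]
    rw [r1]
    rw [← hE₁ v.1, ← hE₂ v.2, Multiset.map_coe, Multiset.map_coe, List.map_map, List.map_map]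
    simp only [List.map_cons, comp_apply]
    simp only [← Multiset.cons_coe, Multiset.coe_nil]
    have e4 : (L₁'.map ((fun x => (x, v.2)) ∘ fun κ => κ v.1)) =
      (L₁'.map (fun κ => (κ v.1, v.2))) := rfl
    have e5 : (L₂'.map ((fun y => (v.1, y)) ∘ fun κ => κ v.2)) =
      (L₂'.map (fun κ => (v.1, κ v.2))) := rfl
    rw [e4, e5]
    generalize ((L₁'.map (fun κ => (κ v.1, v.2)) : List ((Fin (m + 1) → ZMod p) × N)) :
      Multiset ((Fin (m + 1) → ZMod p) × N)) = A
    generalize ((L₂'.map (fun κ => (v.1, κ v.2)) : List ((Fin (m + 1) → ZMod p) × N)) :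
      Multiset ((Fin (m + 1) → ZMod p) × N)) = B
    simp only [Multiset.add_cons, Multiset.cons_add, add_zero]
    rw [Multiset.cons_swap (τ₂ v.1, v.2), Multiset.cons_swap (τ₁ v.1, v.2),
      Multiset.cons_swap (τ₁ v.1, v.2)]

end Pool.Agent.U890.EA
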